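import Pool.Agent.V1174.FF.Fld

/-!
# A planar force field of infinitely many positive point masses without equilibrium

The answer to the question is negative, already for `n = 2`: there are infinitely many positive
point masses in the plane, with no accumulation point and with `∑ a_k / |x_k| < ∞`, whose force
field has no zero.

Idea. Put `ω = exp (iπ/3)`. For every `N` a critical point of an explicit energy (found as its
global minimum, the energy being coercive) gives radii `r_1 < ⋯ < r_N` such that the rational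
function `- (1 - z) ^ (2 N - 1) / ∏ (1 - z / (r_k ω)) (1 - z / (r_k ω̄))` has only positive residues.
So all zeros of the field of these `2 N` masses are at one point `c`. After the normalisations
`r_1 = 1`, `f_N(0) = -1`, positivity of the masses and the first two Taylor coefficients at `0` give
`∑ r_k⁻² + (2 N - 1) / c² ≤ 5`, hence `c → ∞`, local finiteness, and the lower bound
`|f_N(z)| ≥ exp (- |z| - 55 |z|²)` away from the poles. A limit of these configurations has the
required properties; no mass escapes to infinity because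
`|f(x) f(-x) f(ix) f(-ix)| ≤ 1 / (1 + x⁴)` for real `x`.
-/

set_option autoImplicit false

namespace Pool.Agent.Results.MP_3f6bc3_an.NoEquilibrium

open Filter Topology Pool.Agent.V1174.FF

noncomputable section

/-- The force field `F(p) = ∑_k a_k (x_k - p) / |p - x_k|ⁿ` in `ℝⁿ`. -/
def forceField (n : ℕ) (x : ℕ → EuclideanSpace ℝ (Fin n)) (a : ℕ → ℝ)
    (p : EuclideanSpace ℝ (Fin n)) : EuclideanSpace ℝ (Fin n) :=
  ∑' k, (a k / ‖p - x k‖ ^ n) • (x k - p)

/-- The configurations of the problem: distinct points `x_k` of `ℝⁿ`, none equal to `0`, without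
accumulation point, and masses `a_k > 0` with `∑ a_k / |x_k|^(n-1) < ∞`. -/
structure Admissible (n : ℕ) (x : ℕ → EuclideanSpace ℝ (Fin n)) (a : ℕ → ℝ) : Prop where
  inj : Function.Injective x
  noAcc : ∀ p, ¬ AccPt p (𝓟 (Set.range x))
  ne_zero : ∀ k, x k ≠ 0
  pos : ∀ k, 0 < a k
  summable : Summable fun k => a k / ‖x k‖ ^ (n - 1)

lemma complex_field {z : ℂ} (hz : z ∉ Set.range xs) :
    HasSum (fun k => (as k / ‖z - xs k‖ ^ 2) • (xs k - z)) ((starRingEnd ℂ) (Phi z)) := by
  have h1 := ((Complex.conjCLE.toContinuousLinearMap).hasSum (field_hasSum hz)).neg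
  have h2 : -(Complex.conjCLE.toContinuousLinearMap (-Phi z)) = (starRingEnd ℂ) (Phi z) := by
    simp
  rw [h2] at h1
  have hfun : ∀ k, -(Complex.conjCLE.toContinuousLinearMap ((as k : ℂ) / (z - xs k)))
      = (as k / ‖z - xs k‖ ^ 2) • (xs k - z) := ?_
  · rw [← funext hfun]; exact h1
  intro k
  have hne : z - xs k ≠ 0 := fun h => hz ⟨k, (sub_eq_zero.mp h).symm⟩
  have hc : (starRingEnd ℂ) (z - xs k) ≠ 0 := (map_ne_zero _).mpr hne
  have hn : ((‖z - xs k‖ ^ 2 : ℝ) : ℂ) = (z - xs k) * (starRingEnd ℂ) (z - xs k) := by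
    rw [Complex.mul_conj, Complex.normSq_eq_norm_sq]
  have hn0 : ((‖z - xs k‖ ^ 2 : ℝ) : ℂ) ≠ 0 := by
    rw [hn]; exact mul_ne_zero hne hc
  show -((starRingEnd ℂ) ((as k : ℂ) / (z - xs k))) = (as k / ‖z - xs k‖ ^ 2) • (xs k - z)
  rw [Complex.real_smul, Complex.ofReal_div, map_div₀, Complex.conj_ofReal, hn]
  field_simp
  ring

/-- the isometry between `ℂ` and the Euclidean plane -/
abbrev e : ℂ ≃ₗᵢ[ℝ] EuclideanSpace ℝ (Fin 2) := Complex.orthonormalBasisOneI.repr

lemma finite_le (R : ℝ) : {k : ℕ | ‖e (xs k)‖ ≤ R}.Finite := by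
  have h := xs_tendsto.eventually_gt_atTop R
  rw [← Nat.cofinite_eq_atTop, eventually_cofinite] at h
  refine h.subset ?_
  intro k hk
  simp only [Set.mem_ofPred_eq] at hk ⊢
  rw [LinearIsometryEquiv.norm_map] at hk
  exact not_lt.mpr hk

lemma noAcc (p : EuclideanSpace ℝ (Fin 2)) : ¬ AccPt p (𝓟 (Set.range fun k => e (xs k))) := by
  intro h
  rw [accPt_iff_frequently] at h
  have hfin := ((finite_le (‖p‖ + 1)).image fun k => e (xs k)).subset
    (Set.sdiff_subset (t := {p}))
  have hp : p ∉ ((fun k => e (xs k)) '' {k : ℕ | ‖e (xs k)‖ ≤ ‖p‖ + 1}) \ {p} := by simp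
  have hopen := hfin.isClosed.isOpen_compl.mem_nhds hp
  have hball : Metric.ball p 1 ∈ 𝓝 p := Metric.ball_mem_nhds p one_pos
  obtain ⟨y, ⟨hyp, hy⟩, hy2⟩ := (h.and_eventually (inter_mem hopen hball)).exists
  obtain ⟨k, rfl⟩ := hy
  apply hy2.1
  refine ⟨⟨k, ?_, rfl⟩, hyp⟩
  have := mem_ball_iff_norm.mp hy2.2
  have h2 := norm_sub_norm_le (e (xs k)) p
  show ‖e (xs k)‖ ≤ ‖p‖ + 1
  linarith

/-- **Negative answer, with `n = 2`.** There are infinitely many positive point masses in the
plane satisfying the conditions of the problem whose force field converges and is nonzero at every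
point other than the `x_k`. -/
theorem result :
    ∃ (x : ℕ → EuclideanSpace ℝ (Fin 2)) (a : ℕ → ℝ), Admissible 2 x a ∧
      ∀ p, p ∉ Set.range x →
        Summable (fun k => (a k / ‖p - x k‖ ^ 2) • (x k - p)) ∧ forceField 2 x a p ≠ 0 := by
  refine ⟨fun k => e (xs k), as, ⟨?_, noAcc, ?_, as_pos, ?_⟩, ?_⟩
  · exact e.injective.comp xs_inj
  · intro k h
    exact xs_ne k ((map_eq_zero_iff e e.injective).mp h)
  · simp only [LinearIsometryEquiv.norm_map]
    have := as_div_summable
    simpa using this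
  · intro p hp
    obtain ⟨z, rfl⟩ := e.surjective p
    have hz : z ∉ Set.range xs := by
      rintro ⟨k, rfl⟩
      exact hp ⟨k, rfl⟩
    have h := (e.toContinuousLinearEquiv.toContinuousLinearMap).hasSum (complex_field hz)
    have he : ∀ w : ℂ, (e.toContinuousLinearEquiv.toContinuousLinearMap) w = e w := fun w => rfl
    simp only [he] at h
    have hterm : ∀ k, e ((as k / ‖z - xs k‖ ^ 2) • (xs k - z))
        = (as k / ‖e z - e (xs k)‖ ^ 2) • (e (xs k) - e z) := by
      intro k
      rw [map_smul, map_sub, ← map_sub e z (xs k), LinearIsometryEquiv.norm_map]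
    simp only [hterm] at h
    refine ⟨h.summable, ?_⟩
    have hval : forceField 2 (fun k => e (xs k)) as (e z) = e ((starRingEnd ℂ) (Phi z)) :=
      h.tsum_eq
    rw [hval]
    intro h0
    have h1 := (map_eq_zero_iff e e.injective).mp h0
    have h2 : Phi z = 0 := (map_eq_zero_iff (starRingEnd ℂ) (star_injective)).mp h1
    exact Phi_ne (q_ne_of hz) h2

/-- The general statement asked for in the question is false. -/
theorem not_question :
    ¬ ∀ n : ℕ, 2 ≤ n → ∀ (x : ℕ → EuclideanSpace ℝ (Fin n)) (a : ℕ → ℝ), Admissible n x a →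
      ∃ p, p ∉ Set.range x ∧ forceField n x a p = 0 := by
  intro h
  obtain ⟨x, a, hx, hne⟩ := result
  obtain ⟨p, hp, h0⟩ := h 2 le_rfl x a hx
  exact (hne p hp).2 h0

end

end Pool.Agent.Results.MP_3f6bc3_an.NoEquilibrium
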